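import Pool.Agent.N869.GK.L.Stm

/-!
# Project GK (helper869), part FACT (helper364): factorisation over the systems
-/

set_option autoImplicit false
set_option linter.unusedSectionVars false

open scoped Classical

namespace Pool.Agent.N364.GK

open Finset
open Pool.Agent.N869.GK

lemma zmod2_cases (a : ZMod 2) : a = 0 ∨ a = 1 := by
  revert a
  decide

lemma sn_zero : sn 0 = 1 := by
  unfold sn
  rw [if_pos rfl]

lemma sn_one : sn 1 = -1 := by
  unfold sn
  rw [if_neg one_ne_zero]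

lemma sn_add (a b : ZMod 2) : sn (a + b) = sn a * sn b := by
  rcases zmod2_cases a with rfl | rfl
  · rw [zero_add, sn_zero, one_mul]
  · rcases zmod2_cases b with rfl | rfl
    · rw [add_zero, sn_zero, mul_one]
    · have h : (1 : ZMod 2) + 1 = 0 := by decide
      rw [h, sn_zero, sn_one]
      norm_num

lemma sn_sum {α : Type} (s : Finset α) (f : α → ZMod 2) : sn (∑ i ∈ s, f i) = ∏ i ∈ s, sn (f i) := by
  refine Finset.induction_on s ?_ ?_
  · rw [sum_empty, prod_empty, sn_zero]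
  · intro a t ha ih
    rw [sum_insert ha, prod_insert ha, sn_add, ih]

section

variable {r : ℕ} {R I ι : Type} [Fintype R] [Fintype ι] [Fintype I]

lemma Xl_sub (lab : R → Gr r) (T : Finset R) (s : Fin 2 → Gr r) (v : R → V) [Fintype {i // i ∈ T}] :
    Xl (fun i : {i // i ∈ T} => lab i.1) univ s (fun i => v i.1) = Xl lab T s v := by
  unfold Xl
  refine Prod.ext rfl ?_
  funext k
  exact (Finset.sum_subtype T (fun _ => Iff.rfl) (fun i => v i k • lab i)).symm

lemma row_sub (D : Par r) (lab : R → Gr r) (N : R → R → ZMod 2) (T : Finset R) (s : Fin 2 → Gr r)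
    (v : R → V) [Fintype {i // i ∈ T}] (i : {i // i ∈ T}) :
    row D (fun i : {i // i ∈ T} => lab i.1) (fun i j => N i.1 j.1) univ s (fun i => v i.1) i =
      row D lab N T s v i.1 := by
  unfold row
  funext k
  rw [Finset.sum_subtype T (p := fun i => i ∈ T) (fun _ => Iff.rfl)
    (fun j => N i.1 j * (v i.1 k + v j k))]

lemma term_sub (D : Par r) (lab : R → Gr r) (N : R → R → ZMod 2) (T : Finset R) (s : Fin 2 → Gr r)
    (v w : R → V) [Fintype {i // i ∈ T}] :
    ∑ i : {i // i ∈ T}, om (w i.1) (row D (fun i : {i // i ∈ T} => lab i.1)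
      (fun i j => N i.1 j.1) univ s (fun i => v i.1) i) = ∑ i ∈ T, om (w i) (row D lab N T s v i) := by
  rw [Finset.sum_subtype T (p := fun i => i ∈ T) (fun _ => Iff.rfl)
    (fun i => om (w i) (row D lab N T s v i))]
  refine sum_congr rfl fun i _ => ?_
  rw [row_sub]

lemma mem_rd {c : ι → I} {a : I} {Y : Finset (Dc ι)} {ζ : Dc {x // c x = a}} :
    ζ ∈ rd c a Y ↔ ∃ η ∈ Y, (fun x : {x // c x = a} => η x.1) = ζ := by
  unfold rd
  exact @Finset.mem_image _ _ (_) _ _ _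

lemma mem_Sp {B : Finset ι} {ζ : Dc ι} : ζ ∈ Sp B ↔ ∀ x, x ∉ B → ζ x = 0 := by
  unfold Sp
  rw [mem_filter]
  exact ⟨fun h => h.2, fun h => ⟨mem_univ _, h⟩⟩

lemma mem_cp {c : ι → I} {a : I} {x : ι} : x ∈ cp c a ↔ c x = a := by
  unfold cp
  rw [mem_filter]
  exact ⟨fun h => h.2, fun h => ⟨mem_univ _, h⟩⟩

lemma mem_PZ {c : ι → I} {Y : I → Finset (Dc ι)} {P : I → Prop} {ζ : Dc ι} :
    ζ ∈ PZ c Y P ↔ (∀ x, ¬ P (c x) → ζ x = 0) ∧ ∀ a, P a → rs c a ζ ∈ Y a := by
  unfold PZ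
  rw [mem_filter, mem_Sp]
  refine and_congr_left fun _ => forall_congr' fun x => ?_
  rw [mem_filter]
  exact ⟨fun h h2 => h (fun h3 => h2 h3.2), fun h h2 => h (fun h3 => h2 ⟨mem_univ _, h3⟩)⟩

lemma rs_rd {c : ι → I} {a : I} {Y : Finset (Dc ι)} (hY : Y ⊆ Sp (cp c a)) {ζ : Dc ι} :
    rs c a ζ ∈ Y ↔ (fun x : {x // c x = a} => ζ x.1) ∈ rd c a Y := by
  rw [mem_rd]
  constructor
  · intro h
    refine ⟨_, h, ?_⟩
    funext x
    unfold rs
    rw [if_pos x.2]
  · rintro ⟨η, hη, h⟩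
    have h2 : rs c a ζ = η := by
      funext x
      unfold rs
      by_cases hx : c x = a
      · rw [if_pos hx]
        exact (congrFun h ⟨x, hx⟩).symm
      · rw [if_neg hx]
        exact (mem_Sp.1 (hY hη) x (fun h3 => hx (mem_cp.1 h3))).symm
    rw [h2]
    exact hη

lemma MS_rd {c : ι → I} {a : I} {Y : Finset (Dc ι)} (h : MS (cp c a) Y) :
    MS univ (rd c a Y) := by
  obtain ⟨h1, h2, h3⟩ := h
  refine ⟨fun ζ _ => mem_Sp.2 fun x hx => absurd (mem_univ x) hx, ?_, ?_⟩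
  · have hinj : Set.InjOn (fun (ζ : Dc ι) (x : {x // c x = a}) => ζ x.1) (Y : Set (Dc ι)) := by
      intro ζ hζ ζ' hζ' he
      funext x
      by_cases hx : c x = a
      · exact congrFun he ⟨x, hx⟩
      · rw [mem_Sp.1 (h1 hζ) x (fun h3 => hx (mem_cp.1 h3)),
          mem_Sp.1 (h1 hζ') x (fun h3 => hx (mem_cp.1 h3))]
    unfold rd
    refine (@Finset.card_image_of_injOn _ _ _ _ (_) hinj).trans ?_
    rw [h2, card_univ]
    congr 1
    exact (Fintype.card_of_subtype (cp c a) (fun x => mem_cp)).symm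
  · intro ζ hζ ζ' hζ'
    obtain ⟨η, hη, rfl⟩ := mem_rd.1 hζ
    obtain ⟨η', hη', rfl⟩ := mem_rd.1 hζ'
    have h4 := h3 η hη η' hη'
    unfold Qs at h4 ⊢
    rw [← h4]
    exact (Finset.sum_subtype (cp c a) (p := fun x => c x = a) (fun x => mem_cp)
      (fun x => om ((η x).2 + (η' x).2) ((η x).1 + (η' x).1))).symm

end

theorem t_FACT : S_FACT := by
  intro r D R I ι _ _ _ T c lab N Y hY
  refine ⟨?_, fun a => MS_rd (hY a)⟩
  have hsub : ∀ a, Y a ⊆ Sp (cp c a) := fun a => (hY a).1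
  have hOne : ∀ a, Pool.Agent.N869.GK.One D (fun i : {i // i ∈ T a} => lab i.1) (fun i j => N i.1 j.1)
      (rd c a (Y a)) = ∑ p ∈ (univ ×ˢ (Fintype.piFinset fun _ : {i // i ∈ T a} =>
        rd c a (Y a))).filter (fun p : ({x // c x = a} → Fin 2 → Gr r) ×
          ({i // i ∈ T a} → Dc {x // c x = a}) =>
          XW D (fun i : {i // i ∈ T a} => lab i.1) (fun _ => univ) p.1 p.2),
        sn (Ex D (fun i : {i // i ∈ T a} => lab i.1) (fun i j => N i.1 j.1) (fun _ => univ)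
          p.1 p.2) := by
    intro a
    unfold Pool.Agent.N869.GK.One
    rw [sum_filter, sum_product]
    refine sum_congr (Finset.ext fun x => ⟨fun _ => @mem_univ _ (_) x,
      fun _ => @mem_univ _ (_) x⟩) fun s _ => ?_
    rw [sum_filter]
    refine sum_congr ?_ (fun y _ => rfl)
    ext y
    simp only [Fintype.mem_piFinset]
  have hL : ∑ s : ι → Fin 2 → Gr r, ∑ ζ ∈ (Fintype.piFinset fun i => PZ c Y fun a => i ∈ T a).filter
      (fun ζ : R → Dc ι => XW D lab (fun x => T (c x)) s ζ),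
      sn (Ex D lab N (fun x => T (c x)) s ζ) =
      ∑ p ∈ (univ ×ˢ (Fintype.piFinset fun i => PZ c Y fun a => i ∈ T a)).filter
        (fun p : (ι → Fin 2 → Gr r) × (R → Dc ι) => XW D lab (fun x => T (c x)) p.1 p.2),
        sn (Ex D lab N (fun x => T (c x)) p.1 p.2) := by
    rw [sum_filter, sum_product]
    refine sum_congr rfl fun s _ => ?_
    rw [sum_filter]
  rw [hL]
  simp_rw [hOne]
  rw [prod_univ_sum]
  refine Finset.sum_bij'
    (fun (p : (ι → Fin 2 → Gr r) × (R → Dc ι)) _ => fun a =>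
      ((fun x : {x // c x = a} => p.1 x.1),
        (fun (i : {i // i ∈ T a}) (x : {x // c x = a}) => p.2 i.1 x.1)))
    (fun q _ => ((fun x => (q (c x)).1 ⟨x, rfl⟩),
      (fun i x => if h : i ∈ T (c x) then (q (c x)).2 ⟨i, h⟩ ⟨x, rfl⟩ else 0))) ?_ ?_ ?_ ?_ ?_
  · rintro ⟨s, ζ⟩ hp
    obtain ⟨hp1, hp2⟩ := mem_filter.1 hp
    have hζ := Fintype.mem_piFinset.1 (mem_product.1 hp1).2
    refine Fintype.mem_piFinset.2 fun a => mem_filter.2 ⟨mem_product.2 ⟨mem_univ _,
      Fintype.mem_piFinset.2 fun i => ?_⟩, ?_⟩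
    · exact (rs_rd (hsub a)).1 ((mem_PZ.1 (hζ i.1)).2 a i.2)
    · rintro ⟨x, rfl⟩
      have h1 := hp2 x
      change Xl (fun i : {i // i ∈ T (c x)} => lab i.1) univ (s x) (fun i => (ζ i.1 x).1) ∈ D.W
      rw [Xl_sub lab (T (c x)) (s x) (fun i => (ζ i x).1)]
      exact h1
  · intro q hq
    have hq' := fun a => mem_filter.1 (Fintype.mem_piFinset.1 hq a)
    refine mem_filter.2 ⟨mem_product.2 ⟨mem_univ _, Fintype.mem_piFinset.2 fun i =>
      mem_PZ.2 ⟨?_, ?_⟩⟩, ?_⟩
    · intro x hx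
      exact dif_neg hx
    · intro a ha
      rw [rs_rd (hsub a)]
      have h1 := Fintype.mem_piFinset.1 (mem_product.1 (hq' a).1).2 ⟨i, ha⟩
      convert h1 using 1
      funext x
      obtain ⟨x, rfl⟩ := x
      exact dif_pos ha
    · intro x
      have h1 := (hq' (c x)).2 ⟨x, rfl⟩
      change Xl (fun i : {i // i ∈ T (c x)} => lab i.1) univ _ _ ∈ D.W at h1
      change Xl lab (T (c x)) ((q (c x)).1 ⟨x, rfl⟩) _ ∈ D.W
      rw [← Xl_sub lab (T (c x))]
      convert h1 using 2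
      funext i
      dsimp only
      rw [dif_pos i.2]
  · rintro ⟨s, ζ⟩ hp
    obtain ⟨hp1, hp2⟩ := mem_filter.1 hp
    have hζ := Fintype.mem_piFinset.1 (mem_product.1 hp1).2
    refine Prod.ext rfl ?_
    funext i x
    by_cases h : i ∈ T (c x)
    · exact dif_pos h
    · exact (dif_neg h).trans ((mem_PZ.1 (hζ i)).1 x h).symm
  · intro q hq
    funext a
    refine Prod.ext ?_ ?_
    · funext x
      obtain ⟨x, rfl⟩ := x
      rfl
    · funext i x
      obtain ⟨x, rfl⟩ := x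
      exact dif_pos i.2
  · rintro ⟨s, ζ⟩ hp
    have h1 : Ex D lab N (fun x => T (c x)) s ζ = ∑ a, Ex D (fun i : {i // i ∈ T a} => lab i.1)
        (fun i j => N i.1 j.1) (fun _ => univ) (fun x : {x // c x = a} => s x.1)
        (fun (i : {i // i ∈ T a}) (x : {x // c x = a}) => ζ i.1 x.1) := by
      unfold Ex
      rw [← Fintype.sum_fiberwise c]
      refine sum_congr rfl fun a _ => sum_congr rfl fun x _ => ?_
      obtain ⟨x, rfl⟩ := x
      exact (term_sub D lab N (T (c x)) (s x) (fun j => (ζ j x).1) (fun i => (ζ i x).2)).symm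
    change sn (Ex D lab N (fun x => T (c x)) s ζ) = _
    rw [h1, sn_sum]

end Pool.Agent.N364.GK
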